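import Mathlib

set_option autoImplicit false

namespace Pool.Agent.P.MP_75c9b5_nt

/-- Power sums of the roots of `X^3 - u X^2 + v X - 1`. -/
def T (u v : ℤ) : ℕ → ℤ
  | 0 => 3
  | 1 => u
  | 2 => u ^ 2 - 2 * v
  | (n + 3) => u * T u v (n + 2) - v * T u v (n + 1) + T u v n

/-- The pair `(a, b)` comes from an `n`-th power, `n ≥ 5`, of a root of `X^3 - u X^2 + v X - 1`. -/
def Killed (a b u v : ℤ) : Prop :=
  ∃ (n : ℕ) (x c : ℝ), 5 ≤ n ∧ 0 < x ∧ x < 1 ∧ c ^ 2 * x < 4 ∧ (u : ℝ) = x + c ∧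
    (v : ℝ) * x = c * x ^ 2 + 1 ∧ (x ^ n) ^ 3 - a * (x ^ n) ^ 2 + b * x ^ n - 1 = 0 ∧
    T u v n = a ∧ T v u n = b

lemma x_le (u v : ℤ) (x c : ℝ) (h0 : 0 < x) (h1 : x < 1) (hc : c ^ 2 * x < 4)
    (hu : (u : ℝ) = x + c) (hv : (v : ℝ) * x = c * x ^ 2 + 1) : x ≤ 5 / 6 := by
  by_contra hx
  push Not at hx
  have hc2 : c ^ 2 < 4.84 := by nlinarith [sq_nonneg c]
  have hc3 : c < 2.2 := by nlinarith
  have hc4 : -2.2 < c := by nlinarith
  have hu1 : (u : ℝ) < 4 := by linarith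
  have hu2 : (-2 : ℝ) < u := by linarith
  have hu1' : u ≤ 3 := by
    have : u < 4 := by exact_mod_cast hu1
    omega
  have hu2' : -1 ≤ u := by
    have : -2 < u := by exact_mod_cast hu2
    omega
  have hu3 : (u : ℝ) ≤ 3 := by exact_mod_cast hu1'
  have hu4 : (-1 : ℝ) ≤ u := by exact_mod_cast hu2'
  have hcc : c = u - x := by linarith
  subst hcc
  have key : 1 - x ^ 3 = x * ((v - u) + u * (1 - x)) := by nlinarith
  rcases lt_trichotomy v u with h | h | h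
  · have : (v : ℝ) - u ≤ -1 := by
      have : v - u ≤ -1 := by omega
      exact_mod_cast this
    have h3 : 0 < 1 - x ^ 3 := by
      have : x ^ 3 < 1 := pow_lt_one₀ h0.le h1 (by norm_num)
      linarith
    have h4 : (v - u) + u * (1 - x) < 0 := by nlinarith
    nlinarith
  · subst h
    have h5 : (1 - x) * (1 + x + x ^ 2 - v * x) = 0 := by nlinarith
    have h6 : 0 < 1 + x + x ^ 2 - v * x := by nlinarith [sq_pos_of_pos (sub_pos.2 h1)]
    have := mul_pos (sub_pos.2 h1) h6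
    linarith
  · have : (1 : ℝ) ≤ (v : ℝ) - u := by
      have : 1 ≤ v - u := by omega
      exact_mod_cast this
    have h4 : 5 / 6 < (v - u) + u * (1 - x) := by nlinarith
    have h7 : (5 / 6 : ℝ) ^ 3 < x ^ 3 := by gcongr
    nlinarith

/-- the cubic has only one real root -/
lemma x_unique (u v : ℤ) (x c x' c' : ℝ) (h0 : 0 < x) (hc : c ^ 2 * x < 4)
    (hu : (u : ℝ) = x + c) (hv : (v : ℝ) * x = c * x ^ 2 + 1)
    (hu' : (u : ℝ) = x' + c') (hv' : (v : ℝ) * x' = c' * x' ^ 2 + 1) : x = x' := by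
  have hcc : c' = x + c - x' := by linarith
  subst hcc
  have e1 : (x' - x) * (x * x' ^ 2 - c * x * x' + 1) = 0 := by
    have h1 : (v : ℝ) * x * x' = (c * x ^ 2 + 1) * x' := by rw [hv]
    have h2 : (v : ℝ) * x' * x = ((x + c - x') * x' ^ 2 + 1) * x := by rw [hv']
    nlinarith
  have e2 : 0 < x * x' ^ 2 - c * x * x' + 1 := by
    nlinarith [mul_nonneg h0.le (sq_nonneg (2 * x' - c))]
  rcases mul_eq_zero.1 e1 with h | h
  · linarith
  · linarith

lemma gamma_bounds (a b : ℤ) (g : ℝ) (ha : 1 ≤ a) (h0 : 0 < g) (h1 : g < 1)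
    (h : g ^ 3 - a * g ^ 2 + b * g - 1 = 0) : (b - a) * g < 1 ∧ 1 < (a + b) * g := by
  have ha' : (1 : ℝ) ≤ a := by exact_mod_cast ha
  have h2 : g ^ 2 < g := by nlinarith
  have h3 : 0 < g ^ 3 := by positivity
  have h4 : g ^ 3 < g := by nlinarith
  constructor
  · nlinarith
  · nlinarith [sq_nonneg g]

lemma killed_unique (s a a' u v : ℤ) (ha : 1 ≤ a) (ha' : 1 ≤ a') (hs : 12 * a ≤ s)
    (hs' : 12 * a' ≤ s) (h : Killed a (s - a) u v) (h' : Killed a' (s - a') u v) : a = a' := by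
  obtain ⟨n, x, c, -, h0, h1, hc, hu, hv, hP, -, -⟩ := h
  obtain ⟨n', x', c', -, -, -, -, hu', hv', hP', -, -⟩ := h'
  have hx := x_unique u v x c x' c' h0 hc hu hv hu' hv'
  subst hx
  have hle := x_le u v x c h0 h1 hc hu hv
  have aux : ∀ (m m' : ℕ) (e e' : ℤ), 1 ≤ e → 1 ≤ e' → 12 * e ≤ s →
      (x ^ m) ^ 3 - e * (x ^ m) ^ 2 + ((s - e : ℤ) : ℝ) * x ^ m - 1 = 0 →
      (x ^ m') ^ 3 - e' * (x ^ m') ^ 2 + ((s - e' : ℤ) : ℝ) * x ^ m' - 1 = 0 → ¬ m < m' := by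
    intro m m' e e' he he' hse hQ hQ' hlt
    have hm' : m' ≠ 0 := by omega
    have hg' := gamma_bounds e' (s - e') (x ^ m') he' (by positivity)
      (pow_lt_one₀ h0.le h1 hm') hQ'
    have hm : m ≠ 0 := by
      rintro rfl
      simp at hQ
      have : (s : ℝ) = 2 * e := by linarith
      have : s = 2 * e := by exact_mod_cast this
      omega
    have hg := gamma_bounds e (s - e) (x ^ m) he (by positivity) (pow_lt_one₀ h0.le h1 hm) hQ
    have hpow : x ^ m' ≤ 5 / 6 * x ^ m := by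
      obtain ⟨k, rfl⟩ := Nat.exists_eq_add_of_lt hlt
      have : x ^ k ≤ 1 := pow_le_one₀ h0.le h1.le
      have hxm : 0 < x ^ m := by positivity
      rw [pow_succ, pow_add]
      have : x ^ k * x ≤ 5 / 6 := by nlinarith [pow_pos h0 k]
      nlinarith
    push_cast at hg hg'
    have hse' : (12 : ℝ) * e ≤ s := by exact_mod_cast hse
    have he1 : (1 : ℝ) ≤ e := by exact_mod_cast he
    have hxm : 0 < x ^ m := by positivity
    have e1 : 1 < (s : ℝ) * x ^ m' := by nlinarith [hg'.2]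
    have e2 : ((s : ℝ) - 2 * e) * x ^ m < 1 := by nlinarith [hg.1]
    have e3 : (s : ℝ) * x ^ m' ≤ s * (5 / 6 * x ^ m) := by
      apply mul_le_mul_of_nonneg_left hpow; linarith
    nlinarith
  have hnn : n = n' := by
    have := aux n n' a a' ha ha' hs hP hP'
    have := aux n' n a' a ha' ha hs' hP' hP
    omega
  subst hnn
  push_cast at hP hP'
  have hg : 0 < x ^ n := by positivity
  have e : ((a : ℝ) - a') * ((x ^ n) ^ 2 + x ^ n) = 0 := by linarith
  rcases mul_eq_zero.1 e with h | h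
  · have : (a : ℝ) = a' := by linarith
    exact_mod_cast this
  · nlinarith [sq_nonneg (x ^ n)]

/-- size bounds in terms of a real bound `Y` with `a + b ≤ Y^5` -/
lemma killed_box (a b u v : ℤ) (Y : ℝ) (ha : 1 ≤ a) (hY : 0 < Y) (hs : (a : ℝ) + b ≤ Y ^ 5)
    (h : Killed a b u v) : 0 ≤ v ∧ (v : ℝ) < Y + 2 ∧ 8 * (u : ℝ) < Y + 72 ∧ -(Y + 64) < 8 * u ∧
      (u : ℝ) * (u - 1) < 4 * Y + 4 * Y / 8 + 8 := by
  obtain ⟨n, x, c, hn, h0, h1, hc, hu, hv, hP, -, -⟩ := h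
  have hg := (gamma_bounds a b (x ^ n) ha (by positivity) (pow_lt_one₀ h0.le h1 (by omega)) hP).2
  have h5 : x ^ n ≤ x ^ 5 := pow_le_pow_of_le_one h0.le h1.le hn
  have hxn : 0 < x ^ n := by positivity
  have hab : 0 < (a : ℝ) + b := by
    by_contra hh
    push Not at hh
    nlinarith
  have h6 : 1 < (Y * x) ^ 5 := by
    rw [mul_pow]
    calc (1 : ℝ) < (a + b) * x ^ n := hg
      _ ≤ (a + b) * x ^ 5 := by gcongr
      _ ≤ Y ^ 5 * x ^ 5 := by gcongr
  have h7 : 1 < Y * x := by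
    by_contra hh
    push Not at hh
    have : (Y * x) ^ 5 ≤ 1 := pow_le_one₀ (by positivity) hh
    linarith
  have hcx : (c * x) ^ 2 < 4 := by nlinarith
  have hcx1 : c * x < 2 := by nlinarith
  have hcx2 : -2 < c * x := by nlinarith
  have hc2 : c ^ 2 < 4 * Y := by nlinarith [sq_nonneg c]
  have hv1 : (-1 : ℝ) < v := by
    by_contra hh
    push Not at hh
    nlinarith
  have hv2 : (v : ℝ) < Y + 2 := by
    by_contra hh
    push Not at hh
    nlinarith
  refine ⟨?_, hv2, ?_, ?_, ?_⟩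
  · have : -1 < v := by exact_mod_cast hv1
    omega
  · nlinarith [sq_nonneg (c - 16)]
  · nlinarith [sq_nonneg (c + 16)]
  · nlinarith [sq_nonneg (c - 16), sq_nonneg (c + 16)]

end Pool.Agent.P.MP_75c9b5_nt
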