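import Mathlib

set_option autoImplicit false

namespace Pool.Agent.P.MP_75c9b5_nt

open Polynomial Finset

/-- The cubic `X^3 - a X^2 + b X - 1` over the integers. -/
noncomputable def PZ (a b : ℤ) : ℤ[X] := X ^ 3 - C a * X ^ 2 + C b * X - 1

lemma sum_shift (Q : ℤ[X]) (k r : ℕ) :
    ∑ j ∈ range (k + r), |(X ^ k * Q).coeff j| = ∑ j ∈ range r, |Q.coeff j| := by
  rw [Finset.sum_range_add]
  have h1 : ∑ j ∈ range k, |(X ^ k * Q).coeff j| = 0 := by
    apply Finset.sum_eq_zero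
    intro j hj
    rw [coeff_X_pow_mul', if_neg (by simpa using hj)]
    simp
  rw [h1, zero_add]
  apply Finset.sum_congr rfl
  intro j _
  rw [coeff_X_pow_mul', if_pos (by omega)]
  simp

lemma l1_upper {ι : Type} (I : Finset ι) (s : ι → ℤ) (hs : ∀ i, s i = 1 ∨ s i = -1) (m : ι → ℕ)
    (J : Finset ℕ) : ∑ j ∈ J, |(∑ i ∈ I, C (s i) * X ^ (m i) : ℤ[X]).coeff j| ≤ I.card := by
  calc ∑ j ∈ J, |(∑ i ∈ I, C (s i) * X ^ (m i) : ℤ[X]).coeff j|
      ≤ ∑ j ∈ J, ∑ i ∈ I, (if j = m i then (1 : ℤ) else 0) := by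
        apply Finset.sum_le_sum
        intro j _
        rw [finsetSum_coeff]
        refine (Finset.abs_sum_le_sum_abs _ _).trans (Finset.sum_le_sum fun i _ => ?_)
        rw [coeff_C_mul, coeff_X_pow]
        split_ifs
        · rcases hs i with h | h <;> simp [h]
        · simp
    _ = ∑ i ∈ I, ∑ j ∈ J, (if j = m i then (1 : ℤ) else 0) := Finset.sum_comm
    _ ≤ ∑ _i ∈ I, (1 : ℤ) := by
        apply Finset.sum_le_sum
        intro i _
        rw [Finset.sum_ite_eq']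
        split_ifs <;> simp
    _ = I.card := by simp

lemma l1_lower (a b : ℤ) (ha : 1 ≤ a) (hb : 2 * a + 4 ≤ b) (Q : ℤ[X]) (hQ : Q ≠ 0)
    (h1 : Q.eval (-1) = 0) :
    a + b + 2 ≤ ∑ j ∈ range (Q.natDegree + 4), |(PZ a b * Q).coeff j| := by
  set h := Q.natDegree with hh
  have hlead : 1 ≤ |Q.coeff h| := Int.one_le_abs (by simpa [hh] using hQ)
  set M := ∑ j ∈ range h, |Q.coeff j| with hM
  have hM1 : |Q.coeff h| ≤ M := by
    rw [eval_eq_sum_range, Finset.sum_range_succ] at h1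
    have e : Q.coeff h * (-1) ^ h = -∑ j ∈ range h, Q.coeff j * (-1) ^ j := by linarith
    calc |Q.coeff h| = |Q.coeff h * (-1) ^ h| := by simp [abs_mul]
      _ = |∑ j ∈ range h, Q.coeff j * (-1) ^ j| := by rw [e, abs_neg]
      _ ≤ ∑ j ∈ range h, |Q.coeff j * (-1) ^ j| := Finset.abs_sum_le_sum_abs _ _
      _ = M := by simp [hM, abs_mul]
  have hexp : ∀ j, (PZ a b * Q).coeff j = (X ^ 3 * Q).coeff j - a * (X ^ 2 * Q).coeff j
      + b * (X ^ 1 * Q).coeff j - Q.coeff j := by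
    intro j
    have : PZ a b * Q = X ^ 3 * Q - C a * (X ^ 2 * Q) + C b * (X ^ 1 * Q) - Q := by
      unfold PZ; ring
    rw [this]
    simp only [coeff_sub, coeff_add, coeff_C_mul]
  have z1 : Q.coeff (h + 1) = 0 := coeff_eq_zero_of_natDegree_lt (by omega)
  have z2 : Q.coeff (h + 2) = 0 := coeff_eq_zero_of_natDegree_lt (by omega)
  have z3 : Q.coeff (h + 3) = 0 := coeff_eq_zero_of_natDegree_lt (by omega)
  have top : (PZ a b * Q).coeff (h + 3) = Q.coeff h := by
    rw [hexp, coeff_X_pow_mul', coeff_X_pow_mul', coeff_X_pow_mul', if_pos (by omega),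
      if_pos (by omega), if_pos (by omega), show h + 3 - 3 = h by omega,
      show h + 3 - 2 = h + 1 by omega, show h + 3 - 1 = h + 2 by omega, z1, z2, z3]
    ring
  have s0 : ∑ j ∈ range (h + 2), |Q.coeff j| = M + |Q.coeff h| := by
    rw [Finset.sum_range_succ, Finset.sum_range_succ, z1]; simp [hM]
  have s1 : ∑ j ∈ range (h + 2), |(X ^ 1 * Q).coeff j| = M + |Q.coeff h| := by
    rw [show h + 2 = 1 + (h + 1) by ring, sum_shift, Finset.sum_range_succ]
  have s2 : ∑ j ∈ range (h + 2), |(X ^ 2 * Q).coeff j| = M := by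
    rw [show h + 2 = 2 + h by ring, sum_shift]
  have s3 : ∑ j ∈ range (h + 2), |(X ^ 3 * Q).coeff j| ≤ M := by
    have : ∑ j ∈ range (3 + h), |(X ^ 3 * Q).coeff j| = M := sum_shift Q 3 h
    rw [show 3 + h = h + 2 + 1 by ring, Finset.sum_range_succ] at this
    linarith [abs_nonneg ((X ^ 3 * Q).coeff (h + 2))]
  have main : ∑ j ∈ range (h + 2), (b * |(X ^ 1 * Q).coeff j| - a * |(X ^ 2 * Q).coeff j|
      - |(X ^ 3 * Q).coeff j| - |Q.coeff j|) ≤ ∑ j ∈ range (h + 2), |(PZ a b * Q).coeff j| := by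
    apply Finset.sum_le_sum
    intro j _
    rw [hexp]
    generalize (X ^ 1 * Q).coeff j = x1
    generalize (X ^ 2 * Q).coeff j = x2
    generalize (X ^ 3 * Q).coeff j = x3
    generalize Q.coeff j = x0
    have e1 : |b * x1| = b * |x1| := by rw [abs_mul, abs_of_nonneg (by omega)]
    have e2 : |a * x2| = a * |x2| := by rw [abs_mul, abs_of_nonneg (by omega)]
    rw [← e1, ← e2]
    generalize b * x1 = y1
    generalize a * x2 = y2
    rcases abs_cases y1 with h1 | h1 <;> rcases abs_cases y2 with h2 | h2 <;>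
      rcases abs_cases x3 with h3 | h3 <;> rcases abs_cases x0 with h4 | h4 <;>
      rcases abs_cases (x3 - y2 + y1 - x0) with h5 | h5 <;> omega
  rw [Finset.sum_sub_distrib, Finset.sum_sub_distrib, Finset.sum_sub_distrib, ← Finset.mul_sum,
    ← Finset.mul_sum, s0, s1, s2] at main
  rw [show h + 4 = h + 2 + 1 + 1 by ring, Finset.sum_range_succ, Finset.sum_range_succ,
    show h + 2 + 1 = h + 3 by ring, top]
  have := abs_nonneg ((PZ a b * Q).coeff (h + 2))
  have hM2 : 1 ≤ M := le_trans hlead hM1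
  nlinarith

theorem card_ge {ι : Type} (I : Finset ι) (s : ι → ℤ) (hs : ∀ i, s i = 1 ∨ s i = -1) (m : ι → ℕ)
    (a b : ℤ) (ha : 1 ≤ a) (hb : 2 * a + 4 ≤ b)
    (hne : (∑ i ∈ I, C (s i) * X ^ (m i) : ℤ[X]) ≠ 0)
    (hdvd : PZ a b ∣ ∑ i ∈ I, C (s i) * X ^ (m i)) : a + b + 2 ≤ I.card := by
  obtain ⟨Q, hQ⟩ := hdvd
  have hQ0 : Q ≠ 0 := by
    rintro rfl
    exact hne (by simpa using hQ)
  by_cases h1 : Q.eval (-1) = 0
  · have := l1_lower a b ha hb Q hQ0 h1
    rw [← hQ] at this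
    exact this.trans (l1_upper I s hs m _)
  · have e := congrArg (eval (-1 : ℤ)) hQ
    rw [eval_mul, eval_finsetSum] at e
    have e1 : eval (-1 : ℤ) (PZ a b) = -(a + b + 2) := by
      simp [PZ]; ring
    have e2 : |∑ i ∈ I, eval (-1 : ℤ) (C (s i) * X ^ (m i))| ≤ I.card := by
      refine (Finset.abs_sum_le_sum_abs _ _).trans (le_of_eq ?_)
      rw [Finset.card_eq_sum_ones]
      push_cast
      apply Finset.sum_congr rfl
      intro i _
      rcases hs i with h | h <;> simp [h]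
    rw [e, e1, abs_mul, abs_neg, abs_of_nonneg (by omega)] at e2
    have := Int.one_le_abs h1
    nlinarith

end Pool.Agent.P.MP_75c9b5_nt
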