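import Pool.Agent.P.MP_75c9b5_nt.Select
import Pool.Agent.P.MP_75c9b5_nt.Norm

set_option autoImplicit false

namespace Pool.Agent.P.MP_75c9b5_nt

open NumberField Polynomial ComplexConjugate

lemma powsum (u v : ℤ) (x z w : ℂ) (hu : (u : ℂ) = x + z + w)
    (hv : (v : ℂ) = x * z + x * w + z * w) (h1 : x * z * w = 1) (n : ℕ) :
    (T u v n : ℂ) = x ^ n + z ^ n + w ^ n := by
  induction n using Nat.strong_induction_on with
  | _ n ih =>
    match n with
    | 0 => simp [T]; norm_num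
    | 1 => simp [T, hu]
    | 2 => simp only [T]; push_cast; rw [hu, hv]; ring
    | (n + 3) =>
      simp only [T]; push_cast
      rw [ih (n + 2) (by omega), ih (n + 1) (by omega), ih n (by omega), hu, hv]
      linear_combination (-(x ^ n + z ^ n + w ^ n)) * h1

section
variable {K : Type} [Field K] [NumberField K]

lemma trace_formula (h3 : Module.finrank ℚ K = 3) (σ : K →+* ℝ) (τ : K →+* ℂ) (α : K)
    (hτ : (τ α).im ≠ 0) (y : K) :
    ((Algebra.trace ℚ K y : ℚ) : ℂ) = (σ y : ℂ) + τ y + conj (τ y) := by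
  classical
  let φ1 : K →ₐ[ℚ] ℂ := (Complex.ofRealHom.comp σ).toRatAlgHom
  let φ2 : K →ₐ[ℚ] ℂ := τ.toRatAlgHom
  let φ3 : K →ₐ[ℚ] ℂ := ((starRingEnd ℂ).comp τ).toRatAlgHom
  have e1 : ∀ y, φ1 y = (σ y : ℂ) := fun _ => rfl
  have e2 : ∀ y, φ2 y = τ y := fun _ => rfl
  have e3 : ∀ y, φ3 y = conj (τ y) := fun _ => rfl
  have h12 : φ1 ≠ φ2 := by
    intro h
    have := congrArg (fun φ : K →ₐ[ℚ] ℂ => (φ α).im) h
    simp only [e1, e2, Complex.ofReal_im] at this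
    exact hτ this.symm
  have h13 : φ1 ≠ φ3 := by
    intro h
    have := congrArg (fun φ : K →ₐ[ℚ] ℂ => (φ α).im) h
    simp only [e1, e3, Complex.ofReal_im, Complex.conj_im] at this
    exact hτ (by linarith)
  have h23 : φ2 ≠ φ3 := by
    intro h
    have := congrArg (fun φ : K →ₐ[ℚ] ℂ => (φ α).im) h
    simp only [e2, e3, Complex.conj_im] at this
    exact hτ (by linarith)
  have huniv : ({φ1, φ2, φ3} : Finset (K →ₐ[ℚ] ℂ)) = Finset.univ := by
    apply Finset.eq_univ_of_card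
    rw [AlgHom.card ℚ K ℂ, h3, Finset.card_eq_three]
    exact ⟨φ1, φ2, φ3, h12, h13, h23, rfl⟩
  have := trace_eq_sum_embeddings (K := ℚ) (L := K) ℂ (x := y)
  rw [← huniv, Finset.sum_insert (by simp [h12, h13]), Finset.sum_insert (by simp [h23]),
    Finset.sum_singleton, e1, e2, e3] at this
  rw [add_assoc, ← this]
  simp

lemma int_trace (h3 : Module.finrank ℚ K = 3) (σ : K →+* ℝ) (τ : K →+* ℂ) (α : K)
    (hτ : (τ α).im ≠ 0) (y : K) (hy : IsIntegral ℤ y) :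
    ∃ u : ℤ, (u : ℂ) = (σ y : ℂ) + τ y + conj (τ y) := by
  have h := Algebra.isIntegral_trace (L := ℚ) hy
  obtain ⟨u, hu⟩ := IsIntegrallyClosed.isIntegral_iff.1 h
  refine ⟨u, ?_⟩
  rw [← trace_formula h3 σ τ α hτ y, ← hu]
  simp

lemma exists_fund (h3 : Module.finrank ℚ K = 3) (τ : K →+* ℂ) (α : K) (hτ : (τ α).im ≠ 0) :
    ∃ β : (𝓞 K)ˣ, ∀ ε : (𝓞 K)ˣ, ∃ e : ℤ, ε = β ^ e ∨ ε = -β ^ e := by
  classical
  have hc : InfinitePlace.IsComplex (InfinitePlace.mk τ) := by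
    rw [← InfinitePlace.not_isReal_iff_isComplex, InfinitePlace.isReal_mk_iff,
      ComplexEmbedding.isReal_iff]
    intro h
    have := congrArg (fun φ : K →+* ℂ => (φ α).im) h
    simp only [ComplexEmbedding.conjugate_coe_eq, Complex.conj_im] at this
    exact hτ (by linarith)
  have h1 : 0 < InfinitePlace.nrComplexPlaces K := Fintype.card_pos_iff.2 ⟨⟨_, hc⟩⟩
  have h2 := InfinitePlace.card_add_two_mul_card_eq_rank K
  have h4 := InfinitePlace.card_eq_nrRealPlaces_add_nrComplexPlaces K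
  have hr : Units.rank K = 1 := by
    unfold Units.rank
    omega
  let i0 : Fin (Units.rank K) := ⟨0, by omega⟩
  have hall : (Finset.univ : Finset (Fin (Units.rank K))) = {i0} := by
    symm
    apply Finset.eq_univ_of_card
    simp [hr]
  refine ⟨Units.fundSystem K i0, fun ε => ?_⟩
  obtain ⟨⟨ζ, e⟩, he, -⟩ := Units.exist_unique_eq_mul_prod K ε
  refine ⟨e i0, ?_⟩
  simp only [hall, Finset.prod_singleton] at he
  rcases Units.torsion_eq_one_or_neg_one_of_odd_finrank (by rw [h3]; decide) ζ with h | h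
  · left; rw [he, h, one_mul]
  · right; rw [he, h, neg_one_mul]

/-- arithmetic data attached to a `p`-th root of `α` -/
lemma root_data (h3 : Module.finrank ℚ K = 3) (σ : K →+* ℝ) (τ : K →+* ℂ) (α : K) (a b : ℤ)
    (hτ : (τ α).im ≠ 0) (hlt : σ α < 1)
    (ha : (a : ℂ) = (σ α : ℂ) + τ α + conj (τ α))
    (hb : (b : ℂ) = (σ α : ℂ)⁻¹ + (τ α)⁻¹ + (conj (τ α))⁻¹)
    (hn : (σ α : ℂ) * τ α * conj (τ α) = 1)
    (β : K) (hβ : IsIntegral ℤ β) (hβ' : IsIntegral ℤ β⁻¹) (hpos : 0 < σ β) (p : ℕ) (hp : p ≠ 0)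
    (hpow : α = β ^ p) :
    ∃ (u v : ℤ) (x c : ℝ), 0 < x ∧ x < 1 ∧ c ^ 2 * x < 4 ∧ (u : ℝ) = x + c ∧
      (v : ℝ) * x = c * x ^ 2 + 1 ∧ x ^ p = σ α ∧ T u v p = a ∧ T v u p = b := by
  obtain ⟨u, hu⟩ := int_trace h3 σ τ α hτ β hβ
  obtain ⟨v, hv⟩ := int_trace h3 σ τ α hτ β⁻¹ hβ'
  rw [map_inv₀, map_inv₀, map_inv₀, Complex.ofReal_inv] at hv
  have hx : (σ β) ^ p = σ α := by rw [hpow, map_pow]
  have hz : (τ β) ^ p = τ α := by rw [hpow, map_pow]
  have hw : (conj (τ β)) ^ p = conj (τ α) := by rw [← hz, map_pow]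
  set x := σ β with hxdef
  set z := τ β with hzdef
  have hzim : z.im ≠ 0 := by
    intro h
    have h1 : conj z = z := Complex.conj_eq_iff_im.2 h
    rw [h1, hz] at hw
    exact hτ (Complex.conj_eq_iff_im.1 hw.symm)
  have hnorm : x * Complex.normSq z = 1 := by
    have h1 : ((x * Complex.normSq z : ℝ) : ℂ) ^ p = 1 := by
      rw [Complex.ofReal_mul, ← Complex.mul_conj, mul_pow, mul_pow, hz, hw, ← Complex.ofReal_pow,
        hx, ← mul_assoc, hn]
    have h2 : (x * Complex.normSq z) ^ p = 1 := by exact_mod_cast h1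
    exact (pow_eq_one_iff_of_nonneg (mul_nonneg hpos.le (Complex.normSq_nonneg z)) hp).1 h2
  have hn' : (x : ℂ) * z * conj z = 1 := by
    rw [mul_assoc, Complex.mul_conj]; exact_mod_cast hnorm
  have hx0 : (x : ℂ) ≠ 0 := by exact_mod_cast hpos.ne'
  have hz0 : z ≠ 0 := by rintro h; simp [h] at hzim
  have hw0 : conj z ≠ 0 := by simpa using hz0
  have i1 : (x : ℂ)⁻¹ = z * conj z := by
    apply inv_eq_of_mul_eq_one_right; rw [← mul_assoc]; exact hn'
  have i2 : z⁻¹ = x * conj z := by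
    apply inv_eq_of_mul_eq_one_right; linear_combination hn'
  have i3 : (conj z)⁻¹ = x * z := by
    apply inv_eq_of_mul_eq_one_right; linear_combination hn'
  have hv' : (v : ℂ) = x * z + x * conj z + z * conj z := by rw [hv, i1, i2, i3]; ring
  refine ⟨u, v, x, 2 * z.re, hpos, ?_, ?_, ?_, ?_, hx, ?_, ?_⟩
  · by_contra hh
    push Not at hh
    have := one_le_pow₀ (n := p) hh
    linarith
  · rw [Complex.normSq_apply] at hnorm
    have : 0 < z.im * z.im := mul_self_pos.2 hzim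
    nlinarith
  · have := congrArg Complex.re hu
    simp at this
    linarith
  · have := congrArg Complex.re hv'
    rw [Complex.normSq_apply] at hnorm
    simp at this
    rw [this]
    linear_combination hnorm
  · have := powsum u v x z (conj z) hu hv' hn' p
    rw [hz, hw, ← Complex.ofReal_pow, hx, ← ha] at this
    exact_mod_cast this
  · have := powsum v u (x : ℂ)⁻¹ z⁻¹ (conj z)⁻¹ hv
      (by rw [hu, i1, i2, i3]
          linear_combination (-(x : ℂ) - z - conj z) * hn')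
      (by rw [← mul_inv, ← mul_inv, hn', inv_one]) p
    rw [inv_pow, inv_pow, inv_pow, hz, hw, ← Complex.ofReal_pow, hx, ← hb] at this
    exact_mod_cast this

lemma not_square (a b u v : ℤ) (h1 : a % 2 = 1) (h2 : (a + b) % 4 = 0) (ha : T u v 2 = a)
    (hb : T v u 2 = b) : False := by
  simp only [T] at ha hb
  obtain ⟨k, rfl | rfl⟩ := Int.even_or_odd' u
  · have : a = 2 * (2 * k ^ 2 - v) := by rw [← ha]; ring
    omega
  · obtain ⟨l, rfl | rfl⟩ := Int.even_or_odd' v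
    · have : b = 2 * (2 * l ^ 2 - 2 * k - 1) := by rw [← hb]; ring
      omega
    · have : a + b = 4 * (k ^ 2 + l ^ 2 - 1) + 2 := by rw [← ha, ← hb]; ring
      omega

lemma cube_mod (u : ℤ) : u ^ 3 % 9 = 0 ∨ u ^ 3 % 9 = 1 ∨ u ^ 3 % 9 = 8 := by
  have : u % 9 = 0 ∨ u % 9 = 1 ∨ u % 9 = 2 ∨ u % 9 = 3 ∨ u % 9 = 4 ∨ u % 9 = 5 ∨ u % 9 = 6 ∨
    u % 9 = 7 ∨ u % 9 = 8 := by omega
  rcases this with h | h | h | h | h | h | h | h | h <;> simp [pow_succ, Int.mul_emod, h]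

lemma not_cube (a b u v : ℤ) (h1 : 3 ≤ (a - b) % 9) (h2 : (a - b) % 9 ≤ 6) (ha : T u v 3 = a)
    (hb : T v u 3 = b) : False := by
  simp only [T] at ha hb
  have : a - b = u ^ 3 - v ^ 3 := by rw [← ha, ← hb]; ring
  have h3 := cube_mod u
  have h4 := cube_mod v
  rw [this] at h1 h2
  generalize u ^ 3 = x at *
  generalize v ^ 3 = y at *
  omega

theorem units_eq (h3 : Module.finrank ℚ K = 3) (σ : K →+* ℝ) (τ : K →+* ℂ) (α : (𝓞 K)ˣ)
    (a b : ℤ) (hG : Good a b) (hτ : (τ α).im ≠ 0) (hgt : 0 < σ α) (hlt : σ α < 1)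
    (hP : (σ α) ^ 3 - a * (σ α) ^ 2 + b * σ α - 1 = 0)
    (ha : (a : ℂ) = (σ α : ℂ) + τ α + conj (τ α))
    (hb : (b : ℂ) = (σ α : ℂ)⁻¹ + (τ α)⁻¹ + (conj (τ α))⁻¹)
    (hn : (σ α : ℂ) * τ α * conj (τ α) = 1) (ε : (𝓞 K)ˣ) :
    ∃ e : ℤ, ε = α ^ e ∨ ε = -α ^ e := by
  -- a generator with positive real image
  have h1 : ∃ β : (𝓞 K)ˣ, 0 < σ β ∧ ∀ ε : (𝓞 K)ˣ, ∃ e : ℤ, ε = β ^ e ∨ ε = -β ^ e := by
    obtain ⟨β, hβ⟩ := exists_fund h3 τ α hτ
    have hne : σ β ≠ 0 := (map_ne_zero σ).2 (Units.coe_ne_zero β)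
    rcases lt_or_gt_of_ne hne with h | h
    · refine ⟨-β, ?_, fun ε => ?_⟩
      · have : ((-β : (𝓞 K)ˣ) : K) = -(β : K) := rfl
        rw [this, map_neg]; linarith
      · obtain ⟨e, he⟩ := hβ ε
        refine ⟨e, ?_⟩
        rcases Int.even_or_odd e with h2 | h2
        · rw [h2.neg_zpow]; exact he
        · rw [h2.neg_zpow, neg_neg]; exact he.symm
    · exact ⟨β, h, hβ⟩
  have h2 : ∃ (β : (𝓞 K)ˣ) (n : ℕ), 0 < σ β ∧ α = β ^ n ∧
      ∀ ε : (𝓞 K)ˣ, ∃ e : ℤ, ε = β ^ e ∨ ε = -β ^ e := by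
    obtain ⟨β, hpos, hβ⟩ := h1
    obtain ⟨e, he⟩ := hβ α
    have he' : α = β ^ e := by
      rcases he with he | he
      · exact he
      · exfalso
        have : ((-β ^ e : (𝓞 K)ˣ) : K) = -((β : K) ^ e) := by
          rw [← Units.coe_zpow]; rfl
        rw [he, this, map_neg, map_zpow₀] at hgt
        have := zpow_pos hpos e
        linarith
    obtain ⟨n, rfl | rfl⟩ := Int.eq_nat_or_neg e
    · exact ⟨β, n, hpos, by rw [he', zpow_natCast], hβ⟩
    · refine ⟨β⁻¹, n, ?_, by rw [he', zpow_neg, zpow_natCast, inv_pow], fun ε => ?_⟩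
      · have : ((β⁻¹ : (𝓞 K)ˣ) : K) = (β : K)⁻¹ := by
          rw [← zpow_neg_one, Units.coe_zpow, zpow_neg_one]
        rw [this, map_inv₀]; exact inv_pos.2 hpos
      · obtain ⟨e, he⟩ := hβ ε
        exact ⟨-e, by simpa using he⟩
  obtain ⟨β, n, hpos, hn', hβ⟩ := h2
  have hn0 : n ≠ 0 := by
    rintro rfl
    rw [hn', pow_zero, Units.coe_one, map_one] at hlt
    exact lt_irrefl _ hlt
  by_cases hn1 : n = 1
  · subst hn1
    rw [pow_one] at hn'
    rw [hn']; exact hβ ε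
  · exfalso
    obtain ⟨k, hk⟩ := Nat.minFac_dvd n
    have hpr := Nat.minFac_prime hn1
    generalize n.minFac = p at hk hpr
    have hint : ∀ η : (𝓞 K)ˣ, IsIntegral ℤ (η : K) := fun η => (η : 𝓞 K).isIntegral_coe
    have hinv : IsIntegral ℤ ((β ^ k : (𝓞 K)ˣ) : K)⁻¹ := by
      have : (((β ^ k)⁻¹ : (𝓞 K)ˣ) : K) = ((β ^ k : (𝓞 K)ˣ) : K)⁻¹ := by
        rw [← zpow_neg_one, Units.coe_zpow, zpow_neg_one]
      rw [← this]; exact hint _
    obtain ⟨u, v, x, c, h0, h1, hc, hu, hv, hx, hT, hT'⟩ :=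
      root_data h3 σ τ α a b hτ hlt ha hb hn ((β ^ k : (𝓞 K)ˣ) : K) (hint _) hinv
        (by rw [Units.coe_pow, map_pow]; positivity) p hpr.ne_zero
        (by rw [← Units.coe_pow, ← pow_mul, mul_comm, ← hk, hn'])
    obtain ⟨g1, g2, g3, g4, g5, g6, g7, g8⟩ := hG
    by_cases p2 : p = 2
    · subst p2; exact not_square a b u v g2 g3 hT hT'
    by_cases p3 : p = 3
    · subst p3; exact not_cube a b u v g4 g5 hT hT'
    have p5 : 5 ≤ p := hpr.five_le_of_ne_two_of_ne_three p2 p3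
    exact g8 u v ⟨p, x, c, p5, h0, h1, hc, hu, hv, by rw [hx]; exact hP, hT, hT'⟩

end

end Pool.Agent.P.MP_75c9b5_nt
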