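import Pool.Agent.P.MP_75c9b5_nt.Field

set_option autoImplicit false

namespace Pool.Agent.P.MP_75c9b5_nt

open NumberField Polynomial ComplexConjugate

lemma PZ_monic (a b : ℤ) : (PZ a b).Monic := by
  unfold PZ; monicity!

lemma PZ_natDegree (a b : ℤ) : (PZ a b).natDegree = 3 := by
  unfold PZ; compute_degree!

lemma PQ_irreducible (a b : ℤ) (ha : 1 ≤ a) (hb : 2 * a + 4 ≤ b) :
    Irreducible ((PZ a b).map (algebraMap ℤ ℚ)) := by
  apply irreducible_of_degree_le_three_of_not_isRoot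
  · rw [(PZ_monic a b).natDegree_map, PZ_natDegree]; simp
  · intro x hx
    have hx' : aeval x (PZ a b) = 0 := by
      rwa [IsRoot, eval_map_algebraMap] at hx
    have hint : IsIntegral ℤ x := ⟨PZ a b, PZ_monic a b, by rwa [← aeval_def]⟩
    obtain ⟨r, rfl⟩ := IsIntegrallyClosed.isIntegral_iff.1 hint
    rw [aeval_algebraMap_apply, map_eq_zero_iff _ (algebraMap ℤ ℚ).injective_int] at hx'
    simp [PZ] at hx'
    have h1 : r * (r ^ 2 - a * r + b) = 1 := by linarith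
    rcases Int.eq_one_or_neg_one_of_mul_eq_one h1 with h | h
    · subst h; omega
    · subst h; omega

lemma exists_roots (a b : ℤ) (ha : 1 ≤ a) (hb : 2 * a + 4 ≤ b) (hd : a ^ 2 + 4 * a ≤ 4 * b) :
    ∃ (g : ℝ) (z : ℂ), 0 < g ∧ g < 1 ∧ g ^ 3 - a * g ^ 2 + b * g - 1 = 0 ∧ z.im ≠ 0 ∧
      (a : ℂ) = (g : ℂ) + z + conj z ∧ (b : ℂ) = (g : ℂ)⁻¹ + z⁻¹ + (conj z)⁻¹ ∧
      (g : ℂ) * z * conj z = 1 ∧ z ^ 3 - a * z ^ 2 + b * z - 1 = 0 := by
  have ha' : (1 : ℝ) ≤ a := by exact_mod_cast ha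
  have hb' : 2 * (a : ℝ) + 4 ≤ b := by exact_mod_cast hb
  have hd' : (a : ℝ) ^ 2 + 4 * a ≤ 4 * b := by exact_mod_cast hd
  have hcont : ContinuousOn (fun g : ℝ => g ^ 3 - a * g ^ 2 + b * g - 1) (Set.Icc 0 1) := by
    fun_prop
  obtain ⟨g, ⟨h0, h1⟩, hg⟩ := intermediate_value_Ioo (zero_le_one' ℝ) hcont
    (show (0 : ℝ) ∈ Set.Ioo _ _ from ⟨by norm_num, by norm_num; linarith⟩)
  simp only at hg
  have hgb := (gamma_bounds a b g ha h0 h1 hg).1
  have hD : 0 < 4 / g - (a - g) ^ 2 := by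
    have h2 : (a - g) ^ 2 < (a : ℝ) ^ 2 := by nlinarith
    have h3 : 4 * ((b : ℝ) - a) < 4 / g := by
      rw [lt_div_iff₀ h0]; nlinarith
    linarith
  obtain ⟨y, hy0, hy⟩ : ∃ y : ℝ, 0 < y ∧ y ^ 2 = 4 / g - (a - g) ^ 2 :=
    ⟨Real.sqrt _, Real.sqrt_pos.2 hD, Real.sq_sqrt hD.le⟩
  have hy' : g * (y ^ 2 + (a - g) ^ 2) = 4 := by
    rw [hy]; field_simp; ring
  let z : ℂ := ⟨(a - g) / 2, y / 2⟩
  have hs : z + conj z = (a : ℂ) - g := by
    apply Complex.ext <;> simp [z]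
  have hn : (g : ℂ) * z * conj z = 1 := by
    rw [mul_assoc, Complex.mul_conj, Complex.normSq_apply]
    have : g * ((a - g) / 2 * ((a - g) / 2) + y / 2 * (y / 2)) = 1 := by linarith
    exact_mod_cast this
  have hgC : (g : ℂ) ^ 3 - a * (g : ℂ) ^ 2 + b * g - 1 = 0 := by exact_mod_cast hg
  have hg0 : (g : ℂ) ≠ 0 := by exact_mod_cast h0.ne'
  have i1 : (g : ℂ)⁻¹ = z * conj z := by
    apply inv_eq_of_mul_eq_one_right; rw [← mul_assoc]; exact hn
  have i2 : z⁻¹ = g * conj z := by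
    apply inv_eq_of_mul_eq_one_right; linear_combination hn
  have i3 : (conj z)⁻¹ = g * z := by
    apply inv_eq_of_mul_eq_one_right; linear_combination hn
  have hb2 : (b : ℂ) = z * conj z + g * conj z + g * z := by
    apply mul_left_cancel₀ hg0
    linear_combination hgC - hn - (g : ℂ) ^ 2 * hs
  refine ⟨g, z, h0, h1, hg, ?_, by linear_combination -hs, by rw [i1, i2, i3, hb2], hn, ?_⟩
  · simp only [z]; positivity
  · have ha2 : (a : ℂ) = g + z + conj z := by linear_combination -hs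
    rw [ha2, hb2]
    linear_combination hn

theorem exists_field (a b : ℤ) (hG : Good a b) :
    ∃ (K : Type) (_ : Field K) (_ : NumberField K) (α : (𝓞 K)ˣ) (σ : K →+* ℝ),
      0 < σ α ∧ σ α < 1 ∧ (α : K) ^ 3 - a * (α : K) ^ 2 + b * (α : K) - 1 = 0 ∧
      (∀ R : ℤ[X], aeval (α : K) R = 0 → PZ a b ∣ R) ∧
      ∀ ε : (𝓞 K)ˣ, ∃ e : ℤ, ε = α ^ e ∨ ε = -α ^ e := by
  have ha := hG.1
  have hb := hG.2.2.2.2.2.1
  have hd := hG.2.2.2.2.2.2.1
  obtain ⟨g, z, h0, h1, hg, hz, e1, e2, e3, hzP⟩ := exists_roots a b ha hb hd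
  set P : ℚ[X] := (PZ a b).map (algebraMap ℤ ℚ) with hP
  have : Fact (Irreducible P) := ⟨PQ_irreducible a b ha hb⟩
  let K := AdjoinRoot P
  let r : K := AdjoinRoot.root P
  have haev : ∀ R : ℤ[X], aeval r R = AdjoinRoot.mk P (R.map (algebraMap ℤ ℚ)) := fun R =>
    AdjoinRoot.aeval_eq_of_algebra P R
  have hr0 : aeval r (PZ a b) = 0 := by rw [haev]; exact AdjoinRoot.mk_self
  have hr : r ^ 3 - a * r ^ 2 + b * r - 1 = 0 := by simpa [PZ] using hr0
  have hint : IsIntegral ℤ r := ⟨PZ a b, PZ_monic a b, by rwa [← aeval_def]⟩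
  let r' : 𝓞 K := ⟨r, hint⟩
  have hr' : r' * (r' ^ 2 - a * r' + b) = 1 := by
    apply RingOfIntegers.coe_injective
    simp only [map_mul, map_add, map_sub, map_pow, map_intCast, map_one]
    change r * (r ^ 2 - a * r + b) = 1
    linear_combination hr
  let α : (𝓞 K)ˣ := Units.mkOfMulEqOne r' _ hr'
  have hα : (α : K) = r := rfl
  have hσ : P.eval₂ (algebraMap ℚ ℝ) g = 0 := by
    rw [hP, eval₂_map, RingHom.ext_int ((algebraMap ℚ ℝ).comp (algebraMap ℤ ℚ)) (algebraMap ℤ ℝ),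
      ← aeval_def]
    simpa [PZ] using hg
  have hτ : P.eval₂ (algebraMap ℚ ℂ) z = 0 := by
    rw [hP, eval₂_map, RingHom.ext_int ((algebraMap ℚ ℂ).comp (algebraMap ℤ ℚ)) (algebraMap ℤ ℂ),
      ← aeval_def]
    simpa [PZ] using hzP
  let σ : K →+* ℝ := AdjoinRoot.lift _ g hσ
  let τ : K →+* ℂ := AdjoinRoot.lift _ z hτ
  have hσr : σ α = g := AdjoinRoot.lift_root hσ
  have hτr : τ α = z := AdjoinRoot.lift_root hτ
  have h3 : Module.finrank ℚ K = 3 := by
    have hP0 : P ≠ 0 := (PQ_irreducible a b ha hb).ne_zero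
    rw [(AdjoinRoot.powerBasis hP0).finrank, AdjoinRoot.powerBasis_dim, hP,
      (PZ_monic a b).natDegree_map, PZ_natDegree]
  refine ⟨K, inferInstance, inferInstance, α, σ, by rw [hσr]; exact h0, by rw [hσr]; exact h1,
    by rw [hα]; exact hr, fun R hR => ?_, ?_⟩
  · have hR' : aeval r R = 0 := by
      rw [hα, aeval_def] at hR
      rw [aeval_def, RingHom.ext_int (algebraMap ℤ K) (Int.castRingHom K)]
      exact hR
    rw [haev, AdjoinRoot.mk_eq_zero, hP,
      map_dvd_map _ (algebraMap ℤ ℚ).injective_int (PZ_monic a b)] at hR'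
    exact hR'
  · exact units_eq h3 σ τ α a b hG (by rw [hτr]; exact hz) (by rw [hσr]; exact h0)
      (by rw [hσr]; exact h1) (by rw [hσr]; exact hg) (by rw [hσr, hτr]; exact e1)
      (by rw [hσr, hτr]; exact e2) (by rw [hσr, hτr]; exact e3)

section
variable {K : Type} [Field K] [NumberField K]

omit [NumberField K] in
lemma lower (a b : ℤ) (ha : 1 ≤ a) (hb : 2 * a + 4 ≤ b) (α : (𝓞 K)ˣ)
    (hdvd : ∀ R : ℤ[X], aeval (α : K) R = 0 → PZ a b ∣ R)
    (hall : ∀ ε : (𝓞 K)ˣ, ∃ e : ℤ, ε = α ^ e ∨ ε = -α ^ e)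
    {ι : Type} (I : Finset ι) (ε : ι → (𝓞 K)ˣ) (hsum : ∑ i ∈ I, (ε i : 𝓞 K) = 0)
    (h : Odd I.card ∨ (I.Nonempty ∧ ∀ i ∈ I, ∀ j ∈ I, (ε i : K) + (ε j : K) ≠ 0)) :
    a + b + 2 ≤ I.card := by
  classical
  have hα0 : (α : K) ≠ 0 := Units.coe_ne_zero α
  have h1 : ∀ i, ∃ (e : ℤ) (s : ℤ), (s = 1 ∨ s = -1) ∧ (ε i : K) = s * (α : K) ^ e := by
    intro i
    obtain ⟨e, he | he⟩ := hall (ε i)
    · exact ⟨e, 1, Or.inl rfl, by rw [he, Units.coe_zpow]; simp⟩
    · refine ⟨e, -1, Or.inr rfl, ?_⟩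
      have : ((-α ^ e : (𝓞 K)ˣ) : K) = -((α : K) ^ e) := by
        rw [← Units.coe_zpow]; rfl
      rw [he, this]; simp
  choose e s hs hes using h1
  let N : ℕ := ∑ i ∈ I, (e i).natAbs
  let m : ι → ℕ := fun i => (e i + N).toNat
  have hm : ∀ i ∈ I, (m i : ℤ) = e i + N := by
    intro i hi
    have : (e i).natAbs ≤ N :=
      Finset.single_le_sum (f := fun i => (e i).natAbs) (fun _ _ => Nat.zero_le _) hi
    simp only [m]; omega
  have hm' : ∀ i ∈ I, (s i : K) * (α : K) ^ (m i) = (ε i : K) * (α : K) ^ N := by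
    intro i hi
    rw [hes, ← zpow_natCast, hm i hi, zpow_add₀ hα0, zpow_natCast, mul_assoc]
  have hsumK : ∑ i ∈ I, (ε i : K) = 0 := by
    have := congrArg (algebraMap (𝓞 K) K) hsum
    rw [map_sum, map_zero] at this
    exact this
  apply card_ge I s hs m a b ha hb
  · intro hR
    rcases h with h | ⟨⟨i0, hi0⟩, h⟩
    · have e1 := congrArg (eval (1 : ℤ)) hR
      rw [eval_finsetSum] at e1
      simp only [eval_mul, eval_C, eval_pow, eval_X, one_pow, mul_one, eval_zero] at e1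
      have e2 : (2 : ℤ) ∣ ∑ i ∈ I, (s i - 1) := by
        apply Finset.dvd_sum
        intro i _
        rcases hs i with h | h <;> simp [h]
      rw [Finset.sum_sub_distrib, e1] at e2
      simp only [Finset.sum_const, nsmul_eq_mul, mul_one] at e2
      obtain ⟨k, hk⟩ := h
      omega
    · have e1 := congrArg (fun R : ℤ[X] => s i0 * R.coeff (m i0)) hR
      simp only [finsetSum_coeff, coeff_C_mul, coeff_X_pow, coeff_zero, mul_zero,
        Finset.mul_sum] at e1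
      have e2 : 0 < ∑ i ∈ I, s i0 * (s i * if m i0 = m i then 1 else 0) := by
        apply Finset.sum_pos'
        · intro i hi
          split_ifs with hmi
          · have hne : s i ≠ -s i0 := by
              intro hss
              apply h i hi i0 hi0
              apply mul_right_cancel₀ (pow_ne_zero N hα0)
              rw [add_mul, ← hm' i hi, ← hm' i0 hi0, hss, hmi]
              push_cast; ring
            rcases hs i with h2 | h2 <;> rcases hs i0 with h3 | h3 <;> simp_all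
          · simp
        · refine ⟨i0, hi0, ?_⟩
          rcases hs i0 with h3 | h3 <;> simp [h3]
      omega
  · apply hdvd
    rw [map_sum]
    have : ∀ i ∈ I, aeval (α : K) (C (s i) * X ^ (m i) : ℤ[X]) = (ε i : K) * (α : K) ^ N := by
      intro i hi
      rw [← hm' i hi]; simp
    rw [Finset.sum_congr rfl this, ← Finset.sum_mul, hsumK, zero_mul]

lemma upper (a b : ℕ) (α : (𝓞 K)ˣ) (σ : K →+* ℝ) (h0 : 0 < σ α) (h1 : σ α < 1)
    (hP : (α : K) ^ 3 - a * (α : K) ^ 2 + b * (α : K) - 1 = 0) :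
    ∃ ε : Fin (a + b + 2) → (𝓞 K)ˣ, ∑ i, (ε i : 𝓞 K) = 0 ∧
      ∀ i j, (ε i : K) + (ε j : K) ≠ 0 := by
  let f : (Fin a ⊕ Fin b) ⊕ (Unit ⊕ Unit) → (𝓞 K)ˣ :=
    Sum.elim (Sum.elim (fun _ => -α ^ 2) (fun _ => α)) (Sum.elim (fun _ => α ^ 3) (fun _ => -1))
  have hc : Fintype.card ((Fin a ⊕ Fin b) ⊕ (Unit ⊕ Unit)) = a + b + 2 := by simp
  let E := Fintype.equivFinOfCardEq hc
  have c2 : ((-α ^ 2 : (𝓞 K)ˣ) : K) = -((α : K) ^ 2) := by rw [← Units.coe_pow]; rfl
  have c3 : ((α ^ 3 : (𝓞 K)ˣ) : K) = (α : K) ^ 3 := Units.coe_pow _ _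
  have c0 : ((-1 : (𝓞 K)ˣ) : K) = -1 := rfl
  refine ⟨fun i => f (E.symm i), ?_, ?_⟩
  · rw [Equiv.sum_comp E.symm (fun x => (f x : 𝓞 K))]
    apply RingOfIntegers.coe_injective
    rw [map_sum, map_zero]
    simp only [Fintype.sum_sum_type, f, Sum.elim_inl, Sum.elim_inr, c2, c3, c0, Finset.sum_const,
      Finset.card_univ, Fintype.card_fin, Fintype.card_unit, nsmul_eq_mul]
    linear_combination hP
  · have hv : ∀ x, σ (f x) = -(σ α) ^ 2 ∨ σ (f x) = σ α ∨ σ (f x) = (σ α) ^ 3 ∨ σ (f x) = -1 := by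
      rintro ((x | x) | (x | x))
      · left; simp only [f, Sum.elim_inl, c2, map_neg, map_pow]
      · right; left; simp only [f, Sum.elim_inl, Sum.elim_inr]
      · right; right; left; simp only [f, Sum.elim_inl, Sum.elim_inr, c3, map_pow]
      · right; right; right; simp only [f, Sum.elim_inr, c0, map_neg, map_one]
    intro i j hij
    have := congrArg σ hij
    rw [map_add, map_zero] at this
    generalize σ α = g at *
    have g2 : g ^ 2 < g := by nlinarith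
    have g3 : g ^ 3 < g ^ 2 := by nlinarith
    have g4 : 0 < g ^ 3 := by positivity
    rcases hv (E.symm i) with h | h | h | h <;> rcases hv (E.symm j) with h' | h' | h' | h' <;>
      rw [h, h'] at this <;> linarith

end

theorem main (t : ℤ) (h0 : t ≠ 0) (h1 : t ≠ 1) :
    ∃ (K : Type) (_ : Field K) (_ : NumberField K) (k : ℕ), (k : ℤ) = 4 * t ^ 4 - 4 * t + 2 ∧
      4 ≤ k ∧
      (∀ (l : ℕ) (ε : Fin l → (𝓞 K)ˣ), Odd l → ∑ i, (ε i : 𝓞 K) = 0 → k ≤ l) ∧
      (∀ (l : ℕ) (ε : Fin l → (𝓞 K)ˣ), 4 ≤ l → ∑ i, (ε i : 𝓞 K) = 0 →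
        (∀ I : Finset (Fin l), I.Nonempty → I ≠ Finset.univ → ∑ i ∈ I, (ε i : 𝓞 K) ≠ 0) → k ≤ l) ∧
      ∃ ε : Fin k → (𝓞 K)ˣ, ∑ i, (ε i : 𝓞 K) = 0 ∧
        ∀ I : Finset (Fin k), I.Nonempty → I ≠ Finset.univ → ∑ i ∈ I, (ε i : 𝓞 K) ≠ 0 := by
  obtain ⟨a, b, hab, hG⟩ := exists_good t h0 h1
  obtain ⟨K, iF, iN, α, σ, s0, s1, hP, hdvd, hall⟩ := exists_field a b hG
  have ha := hG.1
  have hb := hG.2.2.2.2.2.1
  lift a to ℕ using (by omega)
  lift b to ℕ using (by omega)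
  refine ⟨K, iF, iN, a + b + 2, by push_cast; rw [← hab], by omega, ?_, ?_, ?_⟩
  · intro l ε hl hsum
    have := lower a b ha hb α hdvd hall Finset.univ ε hsum (Or.inl (by simpa using hl))
    simp only [Finset.card_univ, Fintype.card_fin] at this
    omega
  · intro l ε hl hsum hno
    have := lower a b ha hb α hdvd hall Finset.univ ε hsum (Or.inr ⟨⟨⟨0, by omega⟩, by simp⟩, ?_⟩)
    · simp only [Finset.card_univ, Fintype.card_fin] at this
      omega
    · intro i _ j _ hij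
      by_cases e : i = j
      · subst e
        rw [← two_mul] at hij
        simp at hij
      · apply hno {i, j} (by simp)
        · intro hh
          have := congrArg Finset.card hh
          rw [Finset.card_pair e] at this
          simp at this
          omega
        · rw [Finset.sum_pair e]
          apply RingOfIntegers.coe_injective
          rw [map_add, map_zero]
          exact hij
  · obtain ⟨ε, hsum, hne⟩ := upper a b α σ s0 s1 (by simpa using hP)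
    refine ⟨ε, hsum, fun I hI hI' hs => ?_⟩
    have := lower a b ha hb α hdvd hall I ε hs (Or.inr ⟨hI, fun i _ j _ => hne i j⟩)
    have h2 := (Finset.card_lt_iff_ne_univ I).2 hI'
    simp only [Fintype.card_fin] at h2
    omega

end Pool.Agent.P.MP_75c9b5_nt
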