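import Pool.Agent.P.MP_75c9b5_nt.Arith

set_option autoImplicit false

namespace Pool.Agent.P.MP_75c9b5_nt

lemma killed_fuel (a b u v : ℤ) (ha : 1 ≤ a) (hs : a + b ≤ 67109120) (h : Killed a b u v) :
    ∃ n : ℕ, 5 ≤ n ∧ n < (if 4 ≤ v then 27 else 100) ∧ T u v n = a ∧ T v u n = b := by
  obtain ⟨n, x, c, hn, h0, h1, hc, hu, hv, hP, hT, hT'⟩ := h
  refine ⟨n, hn, ?_, hT, hT'⟩
  have hg := (gamma_bounds a b (x ^ n) ha (by positivity) (pow_lt_one₀ h0.le h1 (by omega)) hP).2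
  have hs' : (a : ℝ) + b ≤ 67109120 := by exact_mod_cast hs
  have hxn : 0 < x ^ n := by positivity
  have hg2 : 1 < 67109120 * x ^ n := by nlinarith
  split_ifs with h4
  · by_contra hh
    push Not at hh
    have h4' : (4 : ℝ) ≤ v := by exact_mod_cast h4
    have hcx : (c * x) ^ 2 < 4 := by nlinarith
    have hcx1 : c * x < 2 := by nlinarith
    have hx : x ≤ 1 / 2 := by nlinarith
    have h5 : x ^ n ≤ x ^ 27 := pow_le_pow_of_le_one h0.le h1.le hh
    have h6 : x ^ 27 ≤ (1 / 2) ^ 27 := by gcongr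
    norm_num at h6
    linarith
  · by_contra hh
    push Not at hh
    have hx := x_le u v x c h0 h1 hc hu hv
    have h5 : x ^ n ≤ x ^ 100 := pow_le_pow_of_le_one h0.le h1.le hh
    have h6 : x ^ 100 ≤ (5 / 6) ^ 100 := by gcongr
    have h7 : ((5 : ℝ) / 6) ^ 100 < 1 / 67109120 := by norm_num
    linarith

def special (s : ℤ) : Bool :=
  (List.range 129).any fun i => s == 4 * ((i : ℤ) - 64) ^ 4 - 4 * ((i : ℤ) - 64)

def bad (p q : ℤ) : Bool := decide (1 ≤ p) && decide (p ≤ 11) && p % 2 == 1 && special (p + q) &&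
  decide (2 * p + 4 ≤ q)

def chk (u v : ℤ) : ℕ → ℤ → ℤ → ℤ → ℤ → ℤ → ℤ → Bool
  | 0, _, _, _, _, _, _ => true
  | (f + 1), p0, p1, p2, q0, q1, q2 =>
    !(bad p0 q0) && chk u v f p1 p2 (u * p2 - v * p1 + p0) q1 q2 (v * q2 - u * q1 + q0)

lemma chk_sound (u v : ℤ) : ∀ (f n : ℕ),
    chk u v f (T u v n) (T u v (n + 1)) (T u v (n + 2)) (T v u n) (T v u (n + 1)) (T v u (n + 2))
      = true → ∀ m, m < f → bad (T u v (n + m)) (T v u (n + m)) = false := by
  intro f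
  induction f with
  | zero => intro n _ m hm; omega
  | succ f ih =>
    intro n h m hm
    simp only [chk, Bool.and_eq_true, Bool.not_eq_true'] at h
    rcases m with _ | m
    · simpa using h.1
    · have := ih (n + 1) (by simpa [T] using h.2) m (by omega)
      rwa [show n + 1 + m = n + (m + 1) by ring] at this

def chkAll : Bool :=
  (List.range 39).all fun j => (List.range 26).all fun i =>
    chk ((i : ℤ) - 12) (j : ℤ) (if 4 ≤ (j : ℤ) then 27 else 100)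
      (T ((i : ℤ) - 12) j 2) (T ((i : ℤ) - 12) j (2 + 1)) (T ((i : ℤ) - 12) j (2 + 2))
      (T j ((i : ℤ) - 12) 2) (T j ((i : ℤ) - 12) (2 + 1)) (T j ((i : ℤ) - 12) (2 + 2))

lemma chkAll_true : chkAll = true := by decide +kernel

lemma small_not_killed (t a b u v : ℤ) (ht1 : -64 ≤ t) (ht2 : t ≤ 64)
    (hab : a + b = 4 * t ^ 4 - 4 * t) (ha : 1 ≤ a) (ha' : a ≤ 11) (hodd : a % 2 = 1)
    (hb : 2 * a + 4 ≤ b) : ¬ Killed a b u v := by
  intro h
  have hs : a + b ≤ 67109120 := by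
    rw [hab]
    have : t ^ 2 ≤ 4096 := by nlinarith
    have : t ^ 4 ≤ 16777216 := by nlinarith [sq_nonneg t]
    linarith
  have hs' : (a : ℝ) + b ≤ 37 ^ 5 := by
    have : (a : ℝ) + b ≤ 67109120 := by exact_mod_cast hs
    norm_num; linarith
  obtain ⟨h1, h2, h3, h4, -⟩ := killed_box a b u v 37 ha (by norm_num) hs' h
  have h2' : v < 39 := by
    have : (v : ℝ) < 39 := by linarith
    exact_mod_cast this
  have h3' : 8 * u < 109 := by
    have : 8 * (u : ℝ) < 109 := by linarith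
    exact_mod_cast this
  have h4' : -101 < 8 * u := by
    have : (-101 : ℝ) < 8 * u := by linarith
    exact_mod_cast this
  obtain ⟨n, hn5, hn, hT, hT'⟩ := killed_fuel a b u v ha hs h
  have hc := chkAll_true
  unfold chkAll at hc
  rw [List.all_eq_true] at hc
  have hc := hc v.toNat (List.mem_range.2 (by omega))
  rw [List.all_eq_true] at hc
  have hc := hc (u + 12).toNat (List.mem_range.2 (by omega))
  have e1 : ((v.toNat : ℕ) : ℤ) = v := by omega
  have e2 : (((u + 12).toNat : ℕ) : ℤ) - 12 = u := by omega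
  rw [e1, e2] at hc
  have := chk_sound u v _ 2 hc (n - 2) (by omega)
  rw [show 2 + (n - 2) = n by omega, hT, hT'] at this
  have hsp : special (a + b) = true := by
    unfold special
    rw [List.any_eq_true]
    refine ⟨(t + 64).toNat, List.mem_range.2 (by omega), ?_⟩
    have e3 : (((t + 64).toNat : ℕ) : ℤ) - 64 = t := by omega
    rw [e3, hab]
    simp
  simp [bad, ha, ha', hodd, hsp, hb] at this

/-- The conditions on `(a, b)` used in the construction of the cubic field. -/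
def Good (a b : ℤ) : Prop :=
  1 ≤ a ∧ a % 2 = 1 ∧ (a + b) % 4 = 0 ∧ 3 ≤ (a - b) % 9 ∧ (a - b) % 9 ≤ 6 ∧ 2 * a + 4 ≤ b ∧
    a ^ 2 + 4 * a ≤ 4 * b ∧ ∀ u v : ℤ, ¬ Killed a b u v

lemma exists_good_small (t : ℤ) (h0 : t ≠ 0) (h1 : t ≠ 1) (ht1 : -64 ≤ t) (ht2 : t ≤ 64) :
    ∃ a b : ℤ, a + b = 4 * t ^ 4 - 4 * t ∧ Good a b := by
  by_cases hm : t = -1
  · subst hm
    refine ⟨1, 7, by norm_num, by norm_num, by norm_num, by norm_num, by norm_num, by norm_num,
      by norm_num, by norm_num, fun u v => ?_⟩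
    exact small_not_killed (-1) 1 7 u v (by norm_num) (by norm_num) (by norm_num) (by norm_num)
      (by norm_num) (by norm_num) (by norm_num)
  · obtain ⟨s, hs⟩ : ∃ s, s = 4 * t ^ 4 - 4 * t := ⟨_, rfl⟩
    have hs56 : 56 ≤ s := by
      rw [hs]
      rcases lt_or_gt_of_ne h0 with h | h
      · have h2 : t ≤ -2 := by omega
        have : 4 ≤ t ^ 2 := by nlinarith
        have : 16 ≤ t ^ 4 := by nlinarith
        linarith
      · have h2 : 2 ≤ t := by omega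
        have : 4 ≤ t ^ 2 := by nlinarith
        have : 8 ≤ t ^ 3 := by nlinarith
        nlinarith
    have hs4 : s % 4 = 0 := by
      have : s = 4 * (t ^ 4 - t) := by rw [hs]; ring
      omega
    have : ∃ a : ℤ, 1 ≤ a ∧ a ≤ 11 ∧ a % 2 = 1 ∧ 3 ≤ (2 * a - s) % 9 ∧ (2 * a - s) % 9 ≤ 6 := by
      have : s % 9 = 0 ∨ s % 9 = 1 ∨ s % 9 = 2 ∨ s % 9 = 3 ∨ s % 9 = 4 ∨ s % 9 = 5 ∨ s % 9 = 6 ∨
        s % 9 = 7 ∨ s % 9 = 8 := by omega
      rcases this with h | h | h | h | h | h | h | h | h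
      · exact ⟨3, by omega⟩
      · exact ⟨3, by omega⟩
      · exact ⟨3, by omega⟩
      · exact ⟨9, by omega⟩
      · exact ⟨5, by omega⟩
      · exact ⟨1, by omega⟩
      · exact ⟨1, by omega⟩
      · exact ⟨1, by omega⟩
      · exact ⟨1, by omega⟩
    obtain ⟨a, a1, a2, a3, a4, a5⟩ := this
    have e : a - (s - a) = 2 * a - s := by ring
    refine ⟨a, s - a, by rw [← hs]; ring, a1, a3, by omega, by rw [e]; exact a4,
      by rw [e]; exact a5, by omega, by nlinarith, fun u v => ?_⟩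
    exact small_not_killed t a (s - a) u v ht1 ht2 (by rw [← hs]; ring) a1 a2 a3 (by omega)

lemma exists_good_large (s : ℤ) (W : ℕ) (hW : 65 ≤ W) (hs4 : s % 4 = 0)
    (hs1 : 4 * (W : ℤ) ^ 4 - 4 * W ≤ s) (hs2 : s ≤ (W : ℤ) ^ 5) :
    ∃ a b : ℤ, a + b = s ∧ Good a b := by
  by_contra hcon
  push Not at hcon
  let A : ℤ × ℤ → ℤ := fun p => 18 * p.1 + (14 * (s + p.2) + 9) % 18
  let C : Finset (ℤ × ℤ) := Finset.Ico (0 : ℤ) ((W : ℤ) ^ 2 / 6) ×ˢ Finset.Icc (3 : ℤ) 6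
  let B : Finset (ℤ × ℤ) :=
    Finset.Icc (-((W : ℤ) / 8 + 9)) ((W : ℤ) / 8 + 9) ×ˢ Finset.Icc (0 : ℤ) ((W : ℤ) + 1)
  have hW' : (65 : ℤ) ≤ W := by exact_mod_cast hW
  have hA : ∀ p ∈ C, 1 ≤ A p ∧ A p ≤ 3 * (W : ℤ) ^ 2 ∧ A p % 2 = 1 ∧
      (2 * A p - s) % 9 = p.2 ∧ 3 ≤ p.2 ∧ p.2 ≤ 6 := by
    intro p hp
    simp only [C, Finset.mem_product, Finset.mem_Ico, Finset.mem_Icc] at hp
    simp only [A]
    generalize (W : ℤ) ^ 2 = w at *
    omega
  have hW2 : (65 : ℤ) * W ≤ (W : ℤ) ^ 2 := by nlinarith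
  have hW4 : (4225 : ℤ) * (W : ℤ) ^ 2 ≤ (W : ℤ) ^ 4 := by nlinarith
  have h12 : ∀ p ∈ C, 12 * A p ≤ s := by
    intro p hp
    have := (hA p hp).2.1
    nlinarith
  have hK : ∀ p ∈ C, ∃ q : ℤ × ℤ, Killed (A p) (s - A p) q.1 q.2 := by
    intro p hp
    obtain ⟨a1, a2, a3, a4, a5, a6⟩ := hA p hp
    have := hcon (A p) (s - A p) (by ring)
    by_contra hh
    push Not at hh
    apply this
    have h12' := h12 p hp
    have e : A p - (s - A p) = 2 * A p - s := by ring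
    refine ⟨a1, a3, by omega, by rw [e, a4]; exact a5, by rw [e, a4]; exact a6, by omega, ?_,
      fun u v => hh (u, v)⟩
    have : A p ^ 2 ≤ (3 * (W : ℤ) ^ 2) ^ 2 := by gcongr
    nlinarith
  choose! f hf using hK
  have hmaps : ∀ p ∈ C, f p ∈ B := by
    intro p hp
    have hs2' : ((A p : ℤ) : ℝ) + ((s - A p : ℤ) : ℝ) ≤ (W : ℝ) ^ 5 := by
      have : (s : ℝ) ≤ (W : ℝ) ^ 5 := by exact_mod_cast hs2
      push_cast; linarith
    have hWpos : (0 : ℝ) < W := by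
      have : 0 < W := by omega
      exact_mod_cast this
    obtain ⟨h1, h2, h3, h4, -⟩ := killed_box _ _ _ _ (W : ℝ) (hA p hp).1 hWpos hs2' (hf p hp)
    have h2' : (f p).2 < W + 2 := by exact_mod_cast h2
    have h3' : 8 * (f p).1 < W + 72 := by exact_mod_cast h3
    have h4' : -((W : ℤ) + 64) < 8 * (f p).1 := by exact_mod_cast h4
    simp only [B, Finset.mem_product, Finset.mem_Icc]
    omega
  have hinj : Set.InjOn f C := by
    intro p hp p' hp' he
    have hp : p ∈ C := hp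
    have hp' : p' ∈ C := hp'
    have h1 := hf p hp
    have h2 := hf p' hp'
    rw [← he] at h2
    have e := killed_unique s _ _ _ _ (hA p hp).1 (hA p' hp').1 (h12 p hp) (h12 p' hp') h1 h2
    have e2 : p.2 = p'.2 := by rw [← (hA p hp).2.2.2.1, ← (hA p' hp').2.2.2.1, e]
    have e1 : p.1 = p'.1 := by
      simp only [A] at e
      rw [e2] at e
      omega
    exact Prod.ext e1 e2
  have hcard := Finset.card_le_card_of_injOn f hmaps hinj
  simp only [C, B, Finset.card_product, Int.card_Ico, Int.card_Icc] at hcard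
  have hc : (((W : ℤ) ^ 2 / 6 - 0).toNat : ℤ) * ((6 + 1 - 3 : ℤ).toNat : ℤ) ≤
      (((W : ℤ) / 8 + 9 + 1 - -((W : ℤ) / 8 + 9)).toNat : ℤ) * (((W : ℤ) + 1 + 1 - 0).toNat : ℤ) := by
    exact_mod_cast hcard
  have e1 : (((W : ℤ) ^ 2 / 6 - 0).toNat : ℤ) = (W : ℤ) ^ 2 / 6 := by
    have : 0 ≤ (W : ℤ) ^ 2 / 6 := by positivity
    omega
  have e2 : (((W : ℤ) / 8 + 9 + 1 - -((W : ℤ) / 8 + 9)).toNat : ℤ) = 2 * ((W : ℤ) / 8) + 19 := by
    omega
  have e3 : (((W : ℤ) + 1 + 1 - 0).toNat : ℤ) = W + 2 := by omega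
  have e4 : ((6 + 1 - 3 : ℤ).toNat : ℤ) = 4 := by decide
  rw [e1, e2, e3, e4] at hc
  have b1 : (W : ℤ) ^ 2 - 5 ≤ 6 * ((W : ℤ) ^ 2 / 6) := by omega
  have b2 : 8 * ((W : ℤ) / 8) ≤ W := by omega
  nlinarith

theorem exists_good (t : ℤ) (h0 : t ≠ 0) (h1 : t ≠ 1) :
    ∃ a b : ℤ, a + b = 4 * t ^ 4 - 4 * t ∧ Good a b := by
  by_cases h : -64 ≤ t ∧ t ≤ 64
  · exact exists_good_small t h0 h1 h.1 h.2
  · have hW : 65 ≤ t.natAbs := by omega
    have hs4 : (4 * t ^ 4 - 4 * t) % 4 = 0 := by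
      have : 4 * t ^ 4 - 4 * t = 4 * (t ^ 4 - t) := by ring
      omega
    have hW' : (65 : ℤ) ≤ (t.natAbs : ℤ) := by exact_mod_cast hW
    have e4 : (t.natAbs : ℤ) ^ 4 = t ^ 4 := by
      rw [Int.natCast_natAbs]
      exact Even.pow_abs (by decide) t
    have b1 : t ≤ (t.natAbs : ℤ) := by omega
    have b2 : -t ≤ (t.natAbs : ℤ) := by omega
    apply exists_good_large _ t.natAbs hW hs4
    · rw [e4]; linarith
    · rw [← e4]
      generalize (t.natAbs : ℤ) = w at *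
      have : 65 * w ≤ w ^ 2 := by nlinarith
      have : 4225 * w ^ 2 ≤ w ^ 4 := by nlinarith
      nlinarith

end Pool.Agent.P.MP_75c9b5_nt
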